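import Pool.Agent.MP_f12303_co.Defs

section

open MeasureTheory Function
open scoped ENNReal

namespace Pool.Agent.MP_f12303_co

variable {n : ℕ}

lemma pi_count_eq :
    (Measure.pi (fun _ : Fin n => (Measure.count : Measure ℤ))) = Measure.count := by
  apply Measure.ext_of_singleton
  intro a
  rw [← Set.univ_pi_singleton, Measure.pi_pi]
  simp [Set.univ_pi_singleton]

/-- Loomis-Whitney type bound: if every axis-parallel line through a point of `A` meets `D`,
then `|A|^(n-1) ≤ |D|^n`. -/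
lemma card_pow_le_of_lines (hn : 2 ≤ n) (A D : Finset (Fin n → ℤ))
    (h : ∀ x ∈ A, ∀ i, ∃ t : ℤ, update x i t ∈ D) :
    A.card ^ (n - 1) ≤ D.card ^ n := by
  classical
  have hn1 : (1 : ℝ) < n := by exact_mod_cast (lt_of_lt_of_le one_lt_two hn)
  have hn0 : (0 : ℝ) < (n : ℝ) - 1 := by linarith
  set p : ℝ := (n : ℝ) / ((n : ℝ) - 1) with hp
  have hconj : Real.HolderConjugate (Fintype.card (Fin n)) p := by
    rw [Fintype.card_fin]
    exact Real.HolderConjugate.conjExponent hn1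
  let f : (Fin n → ℤ) → ℝ≥0∞ := (D : Set (Fin n → ℤ)).indicator 1
  have hf : Measurable f := measurable_of_countable f
  have key := lintegral_prod_lintegral_pow_le
    (fun _ : Fin n => (Measure.count : Measure ℤ)) hconj hf
  rw [pi_count_eq] at key
  have h1 : ∫⁻ x, f x ∂(Measure.count : Measure (Fin n → ℤ)) = D.card := by
    simp only [f]
    rw [lintegral_indicator_one (MeasurableSet.of_discrete), Measure.count_apply_finset]
  have h2 : (A.card : ℝ≥0∞) ≤ ∫⁻ x, ∏ i, (∫⁻ t, f (update x i t) ∂(Measure.count : Measure ℤ)) ^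
      ((1 : ℝ) / ((Fintype.card (Fin n) : ℝ) - 1)) ∂(Measure.count : Measure (Fin n → ℤ)) := by
    rw [← Measure.count_apply_finset, ← lintegral_indicator_one (MeasurableSet.of_discrete)]
    apply lintegral_mono
    intro x
    by_cases hx : x ∈ (A : Set (Fin n → ℤ))
    · rw [Set.indicator_of_mem hx]
      apply Finset.one_le_prod'
      intro i _
      obtain ⟨t, ht⟩ := h x hx i
      have h3 : (1 : ℝ≥0∞) ≤ ∫⁻ t, f (update x i t) ∂(Measure.count : Measure ℤ) := by
        rw [lintegral_count]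
        refine le_trans ?_ (ENNReal.le_tsum t)
        simp only [f]
        rw [Set.indicator_of_mem (by exact_mod_cast ht)]
        simp
      apply ENNReal.one_le_rpow h3
      rw [Fintype.card_fin]
      positivity
    · rw [Set.indicator_of_notMem hx]
      exact zero_le
  rw [h1] at key
  have h4 : (A.card : ℝ≥0∞) ≤ (D.card : ℝ≥0∞) ^ p := h2.trans key
  have h5 : (A.card : ℝ≥0∞) ^ (n - 1) ≤ (D.card : ℝ≥0∞) ^ n := by
    calc (A.card : ℝ≥0∞) ^ (n - 1) ≤ ((D.card : ℝ≥0∞) ^ p) ^ (n - 1) := by gcongr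
      _ = (D.card : ℝ≥0∞) ^ n := by
        rw [← ENNReal.rpow_natCast, ← ENNReal.rpow_mul, ← ENNReal.rpow_natCast]
        congr 1
        rw [Nat.cast_sub (by omega), hp]
        push_cast
        field_simp
  exact_mod_cast h5

lemma latticeAdj_symm {x y : Fin n → ℤ} (h : LatticeAdj x y) : LatticeAdj y x := by
  unfold LatticeAdj at *
  rw [← h]
  apply Finset.sum_congr rfl
  intro i _
  ring

lemma latticeAdj_update (x : Fin n → ℤ) (i : Fin n) (s t : ℤ) (h : (s - t) ^ 2 = 1) :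
    LatticeAdj (update x i s) (update x i t) := by
  unfold LatticeAdj
  rw [Finset.sum_eq_single i]
  · simpa using h
  · intro j _ hj
    simp [update_of_ne hj]
  · simp

lemma abs_le_one_of_adj {x y : Fin n → ℤ} (h : LatticeAdj x y) (i : Fin n) :
    |x i - y i| ≤ 1 := by
  unfold LatticeAdj at h
  have h1 : (x i - y i) ^ 2 ≤ 1 := by
    rw [← h]
    exact Finset.single_le_sum (f := fun j => (x j - y j) ^ 2)
      (fun j _ => sq_nonneg _) (Finset.mem_univ i)
  exact (sq_le_one_iff_abs_le_one _).1 h1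

/-- Discrete intermediate value step, going up. -/
lemma exists_switch_up (P : ℤ → Prop) (s : ℤ) (m : ℕ) (hs : P s) (ht : ¬ P (s + m)) :
    ∃ u, s ≤ u ∧ u + 1 ≤ s + m ∧ P u ∧ ¬ P (u + 1) := by
  induction m with
  | zero => exact absurd hs (by simpa using ht)
  | succ m ih =>
    by_cases hm : P (s + m)
    · refine ⟨s + m, by omega, by push_cast; omega, hm, ?_⟩
      push_cast at ht
      rwa [add_assoc]
    · obtain ⟨u, h1, h2, h3, h4⟩ := ih hm
      exact ⟨u, h1, by push_cast; omega, h3, h4⟩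

/-- Discrete intermediate value theorem. -/
lemma exists_switch (P : ℤ → Prop) (s t : ℤ) (hs : P s) (ht : ¬ P t) :
    ∃ u v, min s t ≤ u ∧ u ≤ max s t ∧ (u - v) ^ 2 = 1 ∧ P u ∧ ¬ P v := by
  rcases le_total s t with h | h
  · obtain ⟨m, rfl⟩ := Int.le.dest h
    obtain ⟨u, h1, h2, h3, h4⟩ := exists_switch_up P s m hs ht
    exact ⟨u, u + 1, by omega, by omega, by ring, h3, h4⟩
  · obtain ⟨m, rfl⟩ := Int.le.dest h
    obtain ⟨u, h1, h2, h3, h4⟩ := exists_switch_up (fun z => ¬ P z) t m ht (by simpa using hs)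
    exact ⟨u + 1, u, by omega, by omega, by ring, by simpa using h4, h3⟩

/-- Vertex isoperimetric inequality in `ℤⁿ`. -/
lemma isoperimetric (hn : 2 ≤ n) (A : Set (Fin n → ℤ)) (hA : A.Finite) :
    A.ncard ^ (n - 1) ≤ (vertexBoundary A).ncard ^ n := by
  classical
  have hD : (vertexBoundary A).Finite := hA.subset (fun x hx => hx.1)
  rw [Set.ncard_eq_toFinset_card A hA, Set.ncard_eq_toFinset_card _ hD]
  apply card_pow_le_of_lines hn
  intro x hx i
  rw [Set.Finite.mem_toFinset] at hx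
  have hinf : ∃ t : ℤ, update x i t ∉ A := by
    by_contra hcon
    push Not at hcon
    have hinj : Injective (fun t : ℤ => update x i t) := update_injective x i
    exact (Set.infinite_of_injective_forall_mem hinj hcon) hA
  obtain ⟨t, ht⟩ := hinf
  obtain ⟨u, v, -, -, h3, h4, h5⟩ := exists_switch (fun z => update x i z ∈ A) (x i) t
    (by simpa using hx) ht
  refine ⟨u, ?_⟩
  rw [Set.Finite.mem_toFinset]
  exact ⟨h4, update x i v, h5, latticeAdj_update x i u v h3⟩

end Pool.Agent.MP_f12303_co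

end

section

open Function

namespace Pool.Agent.MP_f12303_co

variable {n : ℕ}

/-- Integer cube as a finset. -/
noncomputable def box (x : Fin n → ℤ) (k : ℕ) : Finset (Fin n → ℤ) :=
  Fintype.piFinset (fun i => Finset.Icc (x i - k) (x i + k))

lemma mem_box {x y : Fin n → ℤ} {k : ℕ} : y ∈ box x k ↔ ∀ i, |y i - x i| ≤ k := by
  simp only [box, Fintype.mem_piFinset, Finset.mem_Icc, abs_le]
  constructor
  · intro h i
    have := h i
    constructor <;> linarith [this.1, this.2]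
  · intro h i
    have := h i
    constructor <;> linarith [this.1, this.2]

lemma card_box (x : Fin n → ℤ) (k : ℕ) : (box x k).card = (2 * k + 1) ^ n := by
  simp only [box, Fintype.card_piFinset, Int.card_Icc]
  have : ∀ i, (x i + k + 1 - (x i - k)).toNat = 2 * k + 1 := by
    intro i
    have : x i + k + 1 - (x i - k) = ((2 * k + 1 : ℕ) : ℤ) := by push_cast; ring
    rw [this, Int.toNat_natCast]
  simp [this]

lemma mem_box_one_of_adj {x y : Fin n → ℤ} (h : LatticeAdj x y) : y ∈ box x 1 := by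
  rw [mem_box]
  intro i
  rw [abs_sub_comm]
  exact_mod_cast abs_le_one_of_adj h i

/-- The neighbours of a finite set. -/
lemma ncard_nbrs_le (T : Set (Fin n → ℤ)) (hT : T.Finite) :
    {y | ∃ x ∈ T, LatticeAdj x y}.Finite ∧
      {y | ∃ x ∈ T, LatticeAdj x y}.ncard ≤ 3 ^ n * T.ncard := by
  classical
  have hsub : {y | ∃ x ∈ T, LatticeAdj x y} ⊆ ↑(hT.toFinset.biUnion (fun x => box x 1)) := by
    rintro y ⟨x, hx, hxy⟩
    simp only [Finset.coe_biUnion, Set.mem_iUnion, Finset.mem_coe, Set.Finite.mem_toFinset]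
    exact ⟨x, hx, mem_box_one_of_adj hxy⟩
  refine ⟨(Finset.finite_toSet _).subset hsub, ?_⟩
  refine (Set.ncard_le_ncard hsub (Finset.finite_toSet _)).trans ?_
  rw [Set.ncard_coe_finset, Set.ncard_eq_toFinset_card T hT]
  refine Finset.card_biUnion_le.trans ?_
  simp [card_box, mul_comm]

/-- The edges at a finite set. -/
lemma ncard_edges_le (T : Set (Fin n → ℤ)) (hT : T.Finite) :
    {e : Sym2 (Fin n → ℤ) | ∃ x ∈ T, ∃ y, LatticeAdj x y ∧ e = s(x, y)}.Finite ∧
      {e : Sym2 (Fin n → ℤ) | ∃ x ∈ T, ∃ y, LatticeAdj x y ∧ e = s(x, y)}.ncard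
        ≤ 3 ^ n * T.ncard := by
  classical
  have hsub : {e : Sym2 (Fin n → ℤ) | ∃ x ∈ T, ∃ y, LatticeAdj x y ∧ e = s(x, y)} ⊆
      ↑(hT.toFinset.biUnion (fun x => (box x 1).image (fun y => s(x, y)))) := by
    rintro e ⟨x, hx, y, hxy, rfl⟩
    simp only [Finset.coe_biUnion, Set.mem_iUnion, Finset.mem_coe, Set.Finite.mem_toFinset,
      Finset.mem_image]
    exact ⟨x, hx, y, mem_box_one_of_adj hxy, rfl⟩
  refine ⟨(Finset.finite_toSet _).subset hsub, ?_⟩
  refine (Set.ncard_le_ncard hsub (Finset.finite_toSet _)).trans ?_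
  rw [Set.ncard_coe_finset, Set.ncard_eq_toFinset_card T hT]
  refine Finset.card_biUnion_le.trans ?_
  calc ∑ x ∈ hT.toFinset, ((box x 1).image (fun y => s(x, y))).card
      ≤ ∑ x ∈ hT.toFinset, 3 ^ n := by
        apply Finset.sum_le_sum
        intro x _
        refine Finset.card_image_le.trans ?_
        simp [card_box]
    _ = 3 ^ n * hT.toFinset.card := by simp [mul_comm]

lemma edgesAt_finite (U : Set (Fin n → ℤ)) (hU : U.Finite) : (edgesAt U).Finite := by
  refine (ncard_edges_le U hU).1.subset ?_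
  rintro e ⟨x, y, rfl, hxy, hx, -⟩
  exact ⟨x, hx, y, hxy, rfl⟩

lemma mem_closure_of_mem_edgesAt {U : Set (Fin n → ℤ)} {x y : Fin n → ℤ}
    (h : s(x, y) ∈ edgesAt U) : x ∈ graphClosure U ∧ y ∈ graphClosure U := by
  obtain ⟨a, b, hab, -, ha, hb⟩ := h
  have ha' : a ∈ graphClosure U := Or.inl ha
  rcases Sym2.eq_iff.1 hab with ⟨rfl, rfl⟩ | ⟨rfl, rfl⟩
  · exact ⟨ha', hb⟩
  · exact ⟨hb, ha'⟩

lemma edgeBoundary_inter_closure (M U : Set (Fin n → ℤ)) :
    edgeBoundary (M ∩ graphClosure U) ∩ edgesAt U = edgeBoundary M ∩ edgesAt U := by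
  ext e
  constructor
  · rintro ⟨⟨x, y, rfl, hxy, hx, hy⟩, he⟩
    have := mem_closure_of_mem_edgesAt he
    exact ⟨⟨x, y, rfl, hxy, hx.1, fun h => hy ⟨h, this.2⟩⟩, he⟩
  · rintro ⟨⟨x, y, rfl, hxy, hx, hy⟩, he⟩
    have := mem_closure_of_mem_edgesAt he
    exact ⟨⟨x, y, rfl, hxy, ⟨hx, this.1⟩, fun h => hy h.1⟩, he⟩

/-- Symmetric form of minimality. -/
def LocMin (M : Set (Fin n → ℤ)) : Prop :=
  ∀ U : Set (Fin n → ℤ), U.Finite → ∀ M' : Set (Fin n → ℤ), (∀ z, z ∉ U → (z ∈ M' ↔ z ∈ M)) →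
    (edgeBoundary M ∩ edgesAt U).ncard ≤ (edgeBoundary M' ∩ edgesAt U).ncard

lemma IsMinimalSubgraph.locMin {M : Set (Fin n → ℤ)} (h : IsMinimalSubgraph M) : LocMin M := by
  intro U hU M' hM'
  have := (h.2.2 U hU).2 (M' ∩ graphClosure U) Set.inter_subset_right (by
    ext z
    constructor
    · rintro ⟨⟨h1, h2⟩, h3⟩
      exact ⟨⟨(hM' z h3.1).1 h1, h2⟩, h3⟩
    · rintro ⟨⟨h1, h2⟩, h3⟩
      exact ⟨⟨(hM' z h3.1).2 h1, h2⟩, h3⟩)
  rwa [edgeBoundary_inter_closure, edgeBoundary_inter_closure] at this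

lemma edgeBoundary_compl (M : Set (Fin n → ℤ)) : edgeBoundary Mᶜ = edgeBoundary M := by
  ext e
  constructor
  · rintro ⟨x, y, rfl, hxy, hx, hy⟩
    exact ⟨y, x, Sym2.eq_swap, latticeAdj_symm hxy, by simpa using hy, hx⟩
  · rintro ⟨x, y, rfl, hxy, hx, hy⟩
    exact ⟨y, x, Sym2.eq_swap, latticeAdj_symm hxy, hy, by simpa using hx⟩

lemma LocMin.compl {M : Set (Fin n → ℤ)} (h : LocMin M) : LocMin Mᶜ := by
  intro U hU M' hM'
  have := h U hU M'ᶜ (by
    intro z hz
    have := hM' z hz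
    simp only [Set.mem_compl_iff] at *
    tauto)
  rwa [edgeBoundary_compl, ← edgeBoundary_compl M] at this

/-- Comparison with the set emptied inside `U`. -/
lemma LocMin.boundary_le {M : Set (Fin n → ℤ)} (h : LocMin M) (U : Set (Fin n → ℤ))
    (hU : U.Finite) :
    (vertexBoundary (M ∩ U)).ncard ≤ 2 * 3 ^ n * (M ∩ exteriorBoundary U).ncard := by
  classical
  set T := M ∩ exteriorBoundary U with hT
  have hext : (exteriorBoundary U).Finite := by
    refine (ncard_nbrs_le U hU).1.subset ?_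
    rintro z ⟨-, w, hw, hzw⟩
    exact ⟨w, hw, latticeAdj_symm hzw⟩
  have hTfin : T.Finite := hext.subset Set.inter_subset_right
  have h1 : (edgeBoundary M ∩ edgesAt U).ncard ≤ 3 ^ n * T.ncard := by
    refine (h U hU (M \ U) (fun z hz => by simp [hz])).trans ?_
    refine le_trans (Set.ncard_le_ncard ?_ (ncard_edges_le T hTfin).1) (ncard_edges_le T hTfin).2
    rintro e ⟨⟨x, y, rfl, hxy, hx, hy⟩, he⟩
    have := (mem_closure_of_mem_edgesAt he).1
    rcases this with h' | h'
    · exact absurd h' hx.2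
    · exact ⟨x, ⟨hx.1, h'⟩, y, hxy, rfl⟩
  let S : Set (Fin n → ℤ) := {x | x ∈ M ∩ U ∧ ∃ y, y ∉ M ∧ LatticeAdj x y}
  have h2 : S.ncard ≤ (edgeBoundary M ∩ edgesAt U).ncard := by
    have hch : ∀ x, ∃ y, x ∈ S → (y ∉ M ∧ LatticeAdj x y) := by
      intro x
      by_cases hx : x ∈ S
      · obtain ⟨y, hy⟩ := hx.2
        exact ⟨y, fun _ => hy⟩
      · exact ⟨x, fun h => absurd h hx⟩
    choose g hg using hch
    refine Set.ncard_le_ncard_of_injOn (fun x => s(x, g x)) ?_ ?_
      ((edgesAt_finite U hU).subset Set.inter_subset_right)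
    · intro x hx
      obtain ⟨hy, hxy⟩ := hg x hx
      refine ⟨⟨x, g x, rfl, hxy, hx.1.1, hy⟩, ⟨x, g x, rfl, hxy, hx.1.2, ?_⟩⟩
      by_cases hgu : g x ∈ U
      · exact Or.inl hgu
      · exact Or.inr ⟨hgu, x, hx.1.2, latticeAdj_symm hxy⟩
    · intro x hx x' hx' hxx
      rcases Sym2.eq_iff.1 hxx with ⟨h', -⟩ | ⟨h', -⟩
      · exact h'
      · exact absurd (h' ▸ hx.1.1) (hg x' hx').1
  have hSfin : S.Finite := hU.subset (fun x hx => hx.1.2)
  have h3 : vertexBoundary (M ∩ U) ⊆ S ∪ {y | ∃ x ∈ T, LatticeAdj x y} := by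
    rintro x ⟨hx, y, hy, hxy⟩
    by_cases hyM : y ∈ M
    · right
      have hyU : y ∉ U := fun h => hy ⟨hyM, h⟩
      exact ⟨y, ⟨hyM, hyU, x, hx.2, latticeAdj_symm hxy⟩, latticeAdj_symm hxy⟩
    · left
      exact ⟨hx, y, hyM, hxy⟩
  have h4 := Set.ncard_le_ncard h3 (hSfin.union (ncard_nbrs_le T hTfin).1)
  have h5 := Set.ncard_union_le S {y | ∃ x ∈ T, LatticeAdj x y}
  have h6 := (ncard_nbrs_le T hTfin).2
  calc (vertexBoundary (M ∩ U)).ncard ≤ 3 ^ n * T.ncard + 3 ^ n * T.ncard := by omega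
    _ = 2 * 3 ^ n * T.ncard := by ring

lemma box_mono (x : Fin n → ℤ) {k l : ℕ} (h : k ≤ l) : box x k ⊆ box x l := by
  intro y hy
  rw [mem_box] at *
  intro i
  exact (hy i).trans (by exact_mod_cast h)

/-- The discrete differential inequality for the volume in cubes. -/
lemma LocMin.growth_step (hn : 2 ≤ n) {M : Set (Fin n → ℤ)} (h : LocMin M) (x : Fin n → ℤ)
    (k : ℕ) : ∃ d : ℕ, (M ∩ box x k).ncard + d ≤ (M ∩ box x (k + 1)).ncard ∧
      (M ∩ box x k).ncard ^ (n - 1) ≤ (2 * 3 ^ n * d) ^ n := by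
  classical
  refine ⟨(M ∩ exteriorBoundary (box x k : Set (Fin n → ℤ))).ncard, ?_, ?_⟩
  · have hsub : exteriorBoundary (box x k : Set (Fin n → ℤ)) ⊆ box x (k + 1) := by
      rintro z ⟨-, w, hw, hzw⟩
      rw [Finset.mem_coe, mem_box] at *
      intro i
      have h1 := abs_le_one_of_adj hzw i
      have h2 := hw i
      rw [abs_le] at *
      push_cast
      constructor <;> linarith [h1.1, h1.2, h2.1, h2.2]
    have hfin : (M ∩ (box x (k + 1) : Set (Fin n → ℤ))).Finite :=
      (Finset.finite_toSet _).subset Set.inter_subset_right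
    have hdisj : Disjoint (M ∩ (box x k : Set (Fin n → ℤ)))
        (M ∩ exteriorBoundary (box x k : Set (Fin n → ℤ))) := by
      rw [Set.disjoint_left]
      rintro z ⟨-, h2⟩ ⟨-, h3⟩
      exact h3.1 h2
    rw [← Set.ncard_union_eq hdisj ((Finset.finite_toSet _).subset Set.inter_subset_right)
      (hfin.subset (fun z hz => ⟨hz.1, hsub hz.2⟩))]
    apply Set.ncard_le_ncard _ hfin
    rintro z (⟨h1, h2⟩ | ⟨h1, h2⟩)
    · exact ⟨h1, box_mono x (Nat.le_succ k) h2⟩
    · exact ⟨h1, hsub h2⟩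
  · refine (isoperimetric hn _ ((Finset.finite_toSet _).subset Set.inter_subset_right)).trans ?_
    exact Nat.pow_le_pow_left (h.boundary_le _ (Finset.finite_toSet _)) n

end Pool.Agent.MP_f12303_co

end

section

open Function

namespace Pool.Agent.MP_f12303_co

variable {n : ℕ}

lemma add_pow_le_aux (m : ℕ) (t c : ℝ) (ht : 1 ≤ t) (hc0 : 0 ≤ c) (hc1 : c ≤ 1) :
    (t + c) ^ (m + 1) ≤ t ^ (m + 1) + c * ((m + 1) * 2 ^ m) * t ^ m := by
  induction m with
  | zero => simp
  | succ m ih =>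
    have ht0 : 0 ≤ t := by linarith
    have htm : 0 ≤ t ^ m := by positivity
    have h2 : (0 : ℝ) ≤ 2 ^ m := by positivity
    have h21 : (1 : ℝ) ≤ 2 ^ m := one_le_pow₀ (by norm_num)
    have hA : 0 ≤ c * ((m + 1) * 2 ^ m) * t ^ m := by positivity
    have hct : t + c ≤ 2 * t := by linarith
    calc (t + c) ^ (m + 1 + 1) = (t + c) ^ (m + 1) * (t + c) := pow_succ _ _
      _ ≤ (t ^ (m + 1) + c * ((m + 1) * 2 ^ m) * t ^ m) * (t + c) := by gcongr
      _ = t ^ (m + 1 + 1) + c * t ^ (m + 1) + c * ((m + 1) * 2 ^ m) * t ^ m * (t + c) := by ring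
      _ ≤ t ^ (m + 1 + 1) + c * t ^ (m + 1) + c * ((m + 1) * 2 ^ m) * t ^ m * (2 * t) := by
        gcongr
      _ = t ^ (m + 1 + 1) + c * (1 + (m + 1) * 2 ^ (m + 1)) * t ^ (m + 1) := by ring
      _ ≤ t ^ (m + 1 + 1) + c * (((m + 1 : ℕ) + 1) * 2 ^ (m + 1)) * t ^ (m + 1) := by
        gcongr
        push_cast
        have : (1 : ℝ) ≤ 2 ^ (m + 1) := one_le_pow₀ (by norm_num)
        nlinarith

/-- The density constant. -/
noncomputable def dens (n : ℕ) : ℝ := 1 / (2 * 3 ^ n * (n * 2 ^ (n - 1)))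

lemma dens_pos (hn : 2 ≤ n) : 0 < dens n := by
  unfold dens
  have : (0 : ℝ) < n := by exact_mod_cast (by omega : 0 < n)
  positivity

lemma dens_le_one (hn : 2 ≤ n) : dens n ≤ 1 := by
  unfold dens
  have h0 : (1 : ℝ) ≤ n := by exact_mod_cast (by omega : 1 ≤ n)
  have h1 : (1 : ℝ) ≤ 3 ^ n := one_le_pow₀ (by norm_num)
  have h2 : (1 : ℝ) ≤ 2 ^ (n - 1) := one_le_pow₀ (by norm_num)
  rw [div_le_one (by positivity)]
  have h3 : (1 : ℝ) ≤ n * 2 ^ (n - 1) := one_le_mul_of_one_le_of_one_le h0 h2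
  have h4 : (1 : ℝ) ≤ 2 * 3 ^ n := by linarith
  exact one_le_mul_of_one_le_of_one_le h4 h3

/-- Density estimate in integer cubes. -/
lemma LocMin.volume_ge (hn : 2 ≤ n) {M : Set (Fin n → ℤ)} (h : LocMin M) {x : Fin n → ℤ}
    (hx : x ∈ M) (k : ℕ) : (1 + dens n * k) ^ n ≤ ((M ∩ box x k).ncard : ℝ) := by
  have hc0 := dens_pos hn
  have hc1 := dens_le_one hn
  induction k with
  | zero =>
    have hfin : (M ∩ (box x 0 : Set (Fin n → ℤ))).Finite :=
      (Finset.finite_toSet _).subset Set.inter_subset_right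
    have : 0 < (M ∩ (box x 0 : Set (Fin n → ℤ))).ncard := by
      rw [Set.ncard_pos hfin]
      exact ⟨x, hx, by rw [Finset.mem_coe, mem_box]; simp⟩
    simp only [Nat.cast_zero, mul_zero, add_zero, one_pow]
    exact_mod_cast this
  | succ k ih =>
    obtain ⟨d, hd1, hd2⟩ := h.growth_step hn x k
    set t : ℝ := 1 + dens n * k with ht
    have ht1 : 1 ≤ t := by
      have : 0 ≤ dens n * k := by positivity
      linarith
    have hd1' : ((M ∩ box x k).ncard : ℝ) + d ≤ (M ∩ box x (k + 1)).ncard := by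
      exact_mod_cast hd1
    have hd2' : ((M ∩ box x k).ncard : ℝ) ^ (n - 1) ≤ (2 * 3 ^ n * d) ^ n := by
      exact_mod_cast hd2
    have h3 : (t ^ (n - 1)) ^ n ≤ (2 * 3 ^ n * (d : ℝ)) ^ n := by
      calc (t ^ (n - 1)) ^ n = (t ^ n) ^ (n - 1) := by rw [← pow_mul, ← pow_mul, mul_comm]
        _ ≤ ((M ∩ box x k).ncard : ℝ) ^ (n - 1) := by gcongr
        _ ≤ _ := hd2'
    have h4 : t ^ (n - 1) ≤ 2 * 3 ^ n * (d : ℝ) :=
      le_of_pow_le_pow_left₀ (by omega) (by positivity) h3
    obtain ⟨m, rfl⟩ : ∃ m, n = m + 1 := ⟨n - 1, by omega⟩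
    have h5 := add_pow_le_aux m t (dens (m + 1)) ht1 hc0.le hc1
    have h6 : dens (m + 1) * ((m + 1) * 2 ^ m) = 1 / (2 * 3 ^ (m + 1)) := by
      unfold dens
      simp only [Nat.add_sub_cancel]
      push_cast
      field_simp
    rw [h6] at h5
    simp only [Nat.add_sub_cancel] at h4
    have h7 : 1 / (2 * 3 ^ (m + 1)) * t ^ m ≤ (d : ℝ) := by
      rw [div_mul_eq_mul_div, one_mul, div_le_iff₀ (by positivity)]
      linarith
    have h8 : 1 + dens (m + 1) * ((k + 1 : ℕ) : ℝ) = t + dens (m + 1) := by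
      rw [ht]; push_cast; ring
    rw [h8]
    linarith

/-- Poincaré inequality in a cube. -/
lemma poincare_box (M : Set (Fin n → ℤ)) (x : Fin n → ℤ) (k : ℕ) :
    (M ∩ box x k).ncard * (Mᶜ ∩ box x k).ncard ≤
      n * (2 * k + 1) ^ (n + 1) * (vertexBoundary M ∩ box x k).ncard := by
  classical
  let I : Fin n → Finset ℤ := fun i => Finset.Icc (x i - k) (x i + k)
  have hI : ∀ i, (I i).card = 2 * k + 1 := by
    intro i
    simp only [I, Int.card_Icc]
    have : x i + k + 1 - (x i - k) = ((2 * k + 1 : ℕ) : ℤ) := by push_cast; ring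
    rw [this, Int.toNat_natCast]
  have hbox : ∀ y, y ∈ box x k ↔ ∀ i, y i ∈ I i := by
    intro y
    simp only [box, Fintype.mem_piFinset, I]
  let A := (box x k).filter (fun y => y ∈ M)
  let B := (box x k).filter (fun y => y ∉ M)
  let D := (box x k).filter (fun y => y ∈ vertexBoundary M)
  have hA : (M ∩ box x k).ncard = A.card := by
    rw [← Set.ncard_coe_finset]; congr 1; ext y; simp [A, and_comm]
  have hB : (Mᶜ ∩ box x k).ncard = B.card := by
    rw [← Set.ncard_coe_finset]; congr 1; ext y; simp [B, and_comm]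
  have hD : (vertexBoundary M ∩ box x k).ncard = D.card := by
    rw [← Set.ncard_coe_finset]; congr 1; ext y; simp [D, and_comm]
  rw [hA, hB, hD, ← Finset.card_product]
  let S : Fin n → (Fin n → ℤ) → Finset ((Fin n → ℤ) × (Fin n → ℤ)) := fun j w =>
    Fintype.piFinset (fun i => if j < i then {w i} else I i) ×ˢ
      Fintype.piFinset (fun i => if i < j then {w i} else I i)
  have hS : ∀ j w, (S j w).card = (2 * k + 1) ^ (n + 1) := by
    intro j w
    simp only [S, Finset.card_product, Fintype.card_piFinset]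
    rw [← Finset.prod_mul_distrib]
    have : ∀ i, (if j < i then ({w i} : Finset ℤ) else I i).card *
        (if i < j then ({w i} : Finset ℤ) else I i).card =
        (2 * k + 1) * (if i = j then 2 * k + 1 else 1) := by
      intro i
      rcases lt_trichotomy i j with h | h | h
      · simp [h, h.ne, not_lt.2 h.le, hI]
      · subst h; simp [hI]
      · simp [h, h.ne', not_lt.2 h.le, hI]
    simp_rw [this]
    rw [Finset.prod_mul_distrib]
    simp [pow_succ]
  have hsub : A ×ˢ B ⊆ Finset.univ.biUnion (fun j : Fin n => D.biUnion (fun w => S j w)) := by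
    rintro ⟨a, b⟩ hab
    rw [Finset.mem_product] at hab
    obtain ⟨ha, hb⟩ := hab
    simp only [A, B, Finset.mem_filter] at ha hb
    let z : ℕ → (Fin n → ℤ) := fun j i => if (i : ℕ) < j then b i else a i
    have hz0 : z 0 = a := by ext i; simp [z]
    have hzn : z n = b := by ext i; simp [z, i.2]
    have hex : ∃ j, j < n ∧ z j ∈ M ∧ z (j + 1) ∉ M := by
      by_contra hcon
      push Not at hcon
      have : ∀ j, j ≤ n → z j ∈ M := by
        intro j
        induction j with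
        | zero => intro _; rw [hz0]; exact ha.2
        | succ j ih => intro hj; exact hcon j (by omega) (ih (by omega))
      exact hb.2 (hzn ▸ this n le_rfl)
    obtain ⟨j, hj, h1, h2⟩ := hex
    let J : Fin n := ⟨j, hj⟩
    have e1 : update (z j) J (a J) = z j := by
      ext i
      by_cases hi : i = J
      · subst hi; simp [z, J]
      · simp [update_of_ne hi]
    have e2 : update (z j) J (b J) = z (j + 1) := by
      ext i
      by_cases hi : i = J
      · subst hi; simp [z, J]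
      · rw [update_of_ne hi]
        have : (i : ℕ) ≠ j := fun h => hi (Fin.ext h)
        simp only [z]
        by_cases h3 : (i : ℕ) < j
        · rw [if_pos h3, if_pos (by omega)]
        · rw [if_neg h3, if_neg (by omega)]
    obtain ⟨u, v, hu1, hu2, huv, hu, hv⟩ := exists_switch (fun s => update (z j) J s ∈ M)
      (a J) (b J) (by rw [e1]; exact h1) (by rw [e2]; exact h2)
    have haI := (hbox a).1 ha.1
    have hbI := (hbox b).1 hb.1
    have huI : u ∈ I J := by
      have h3 := haI J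
      have h4 := hbI J
      simp only [I, Finset.mem_Icc] at h3 h4 ⊢
      omega
    simp only [Finset.mem_biUnion, Finset.mem_univ, true_and]
    refine ⟨J, update (z j) J u, ?_, ?_⟩
    · simp only [D, Finset.mem_filter]
      refine ⟨(hbox _).2 ?_, hu, update (z j) J v, hv, latticeAdj_update _ _ _ _ huv⟩
      intro i
      by_cases hi : i = J
      · subst hi; simpa using huI
      · rw [update_of_ne hi]
        simp only [z]
        split_ifs
        · exact hbI i
        · exact haI i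
    · simp only [S, Finset.mem_product, Fintype.mem_piFinset]
      constructor
      · intro i
        split_ifs with h3
        · rw [Finset.mem_singleton, update_of_ne h3.ne']
          have : j < (i : ℕ) := h3
          simp only [z]
          rw [if_neg (by omega)]
        · exact haI i
      · intro i
        split_ifs with h3
        · rw [Finset.mem_singleton, update_of_ne h3.ne]
          have : (i : ℕ) < j := h3
          simp only [z]
          rw [if_pos this]
        · exact hbI i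
  refine (Finset.card_le_card hsub).trans (Finset.card_biUnion_le.trans ?_)
  calc ∑ j : Fin n, (D.biUnion (fun w => S j w)).card
      ≤ ∑ j : Fin n, (2 * k + 1) ^ (n + 1) * D.card := by
        apply Finset.sum_le_sum
        intro j _
        refine Finset.card_biUnion_le.trans ?_
        simp [hS, mul_comm]
    _ = n * (2 * k + 1) ^ (n + 1) * D.card := by simp [mul_assoc]

end Pool.Agent.MP_f12303_co

end

section

open Function

namespace Pool.Agent.MP_f12303_co

variable {n : ℕ}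

lemma cube_eq_box (x : Fin n → ℤ) {r : ℝ} (hr : 0 ≤ r) : cube x r = box x ⌊r⌋₊ := by
  ext y
  simp only [cube, Set.mem_ofPred_eq, Finset.mem_coe, mem_box]
  apply forall_congr'
  intro i
  rw [← Int.cast_sub, ← Int.cast_abs, ← Int.le_floor, Int.natCast_floor_eq_floor hr]

lemma box_subset_box {x y : Fin n → ℤ} {d k : ℕ} (hy : y ∈ box x d) :
    box y k ⊆ box x (d + k) := by
  intro z hz
  rw [mem_box] at *
  intro i
  have h1 := hy i
  have h2 := hz i
  rw [abs_le] at *
  push_cast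
  constructor <;> linarith [h1.1, h1.2, h2.1, h2.2]

lemma exists_mem_box (x y : Fin n → ℤ) : ∃ d : ℕ, y ∈ box x d := by
  refine ⟨∑ i, (y i - x i).natAbs, ?_⟩
  rw [mem_box]
  intro i
  rw [Int.abs_eq_natAbs]
  exact_mod_cast Finset.single_le_sum (f := fun j => (y j - x j).natAbs)
    (fun j _ => Nat.zero_le _) (Finset.mem_univ i)

lemma volume_bound (hn : 2 ≤ n) {M : Set (Fin n → ℤ)} (h : LocMin M) {x : Fin n → ℤ}
    (hx : x ∈ M) {r : ℝ} (hr : 0 ≤ r) :
    dens n ^ n * r ^ n ≤ ((M ∩ cube x r).ncard : ℝ) := by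
  rw [cube_eq_box x hr]
  refine le_trans ?_ (h.volume_ge hn hx ⌊r⌋₊)
  rw [← mul_pow]
  have hc0 := dens_pos hn
  have hc1 := dens_le_one hn
  have h1 : r ≤ ⌊r⌋₊ + 1 := (Nat.lt_floor_add_one r).le
  gcongr
  nlinarith

theorem main (n : ℕ) (hn : 2 ≤ n) :
    ∃ c₂ c₄ : ℝ, 0 < c₂ ∧ 0 < c₄ ∧
      ∀ M : Set (Fin n → ℤ), IsMinimalSubgraph M → ∀ x ∈ M, ∃ r₀ : ℝ, ∀ r : ℝ, r₀ ≤ r →
        c₂ * r ^ n ≤ ((M ∩ cube x r).ncard : ℝ) ∧
        c₄ * r ^ (n - 1) ≤ ((vertexBoundary M ∩ cube x r).ncard : ℝ) := by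
  have hc0 := dens_pos hn
  have hc1 := dens_le_one hn
  have hn0 : (0 : ℝ) < n := by exact_mod_cast (by omega : 0 < n)
  refine ⟨dens n ^ n, dens n ^ n * (dens n / 2) ^ n / (n * 3 ^ (n + 1)), by positivity,
    by positivity, ?_⟩
  intro M hM x hx
  have hL := hM.locMin
  obtain ⟨y, hy⟩ : ∃ y, y ∉ M := by
    by_contra hcon
    push Not at hcon
    exact hM.2.1 (Set.eq_univ_of_forall hcon)
  obtain ⟨d, hd⟩ := exists_mem_box x y
  refine ⟨2 * d + 2, fun r hr => ?_⟩
  have hd0 : (0 : ℝ) ≤ d := Nat.cast_nonneg d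
  have hr0 : 0 ≤ r := by linarith
  have hr1 : 1 ≤ r := by linarith
  have hV := volume_bound hn hL hx hr0
  refine ⟨hV, ?_⟩
  rw [cube_eq_box x hr0] at hV ⊢
  set k := ⌊r⌋₊ with hk
  have hk1 : r ≤ k + 1 := (Nat.lt_floor_add_one r).le
  have hk2 : (k : ℝ) ≤ r := Nat.floor_le hr0
  have hdk : d ≤ k := by
    have : (d : ℝ) ≤ k := by linarith
    exact_mod_cast this
  have hW : (dens n / 2) ^ n * r ^ n ≤ ((Mᶜ ∩ box x k).ncard : ℝ) := by
    have h1 := hL.compl.volume_ge hn (x := y) hy (k - d)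
    have h2 : (Mᶜ ∩ box y (k - d)).ncard ≤ (Mᶜ ∩ box x k).ncard := by
      apply Set.ncard_le_ncard _ ((Finset.finite_toSet _).subset Set.inter_subset_right)
      apply Set.inter_subset_inter_right
      have := box_subset_box (k := k - d) hd
      rw [Nat.add_sub_cancel' hdk] at this
      exact_mod_cast this
    have h2' : ((Mᶜ ∩ box y (k - d)).ncard : ℝ) ≤ (Mᶜ ∩ box x k).ncard := by exact_mod_cast h2
    refine le_trans ?_ (h1.trans h2')
    rw [← mul_pow, Nat.cast_sub hdk]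
    gcongr
    nlinarith
  have hP : ((M ∩ box x k).ncard : ℝ) * (Mᶜ ∩ box x k).ncard ≤
      n * (2 * k + 1) ^ (n + 1) * (vertexBoundary M ∩ box x k).ncard := by
    exact_mod_cast poincare_box M x k
  set D : ℝ := ((vertexBoundary M ∩ box x k).ncard : ℝ) with hD
  have hD0 : 0 ≤ D := Nat.cast_nonneg _
  have h3 : (dens n ^ n * r ^ n) * ((dens n / 2) ^ n * r ^ n) ≤ n * (3 * r) ^ (n + 1) * D := by
    calc _ ≤ ((M ∩ box x k).ncard : ℝ) * (Mᶜ ∩ box x k).ncard := by gcongr
      _ ≤ n * (2 * k + 1) ^ (n + 1) * D := hP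
      _ ≤ n * (3 * r) ^ (n + 1) * D := by
        gcongr
        linarith
  obtain ⟨m, rfl⟩ : ∃ m, n = m + 1 := ⟨n - 1, by omega⟩
  simp only [Nat.add_sub_cancel]
  rw [div_mul_eq_mul_div, div_le_iff₀ (by positivity)]
  have hrp : 0 < r ^ (m + 1 + 1) := by positivity
  apply le_of_mul_le_mul_right _ hrp
  calc dens (m + 1) ^ (m + 1) * (dens (m + 1) / 2) ^ (m + 1) * r ^ m * r ^ (m + 1 + 1)
      = (dens (m + 1) ^ (m + 1) * r ^ (m + 1)) * ((dens (m + 1) / 2) ^ (m + 1) * r ^ (m + 1)) := by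
        ring
    _ ≤ _ := h3
    _ = _ := by rw [mul_pow]; ring

end Pool.Agent.MP_f12303_co

end
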